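import Pool.Agent.Y604.QF.SNB
import Pool.Agent.H78R3.TSV.Mem
import Pool.Agent.H612.AR

/-!
# The spectral norm: polynomial time, membership and completeness
-/

namespace Pool.Agent.NPC.Y604QF

open Pool.Agent.NPC Pool.Agent.NPC.ER Pool.Agent.NPC.H670R2 Pool.Agent.NPC.H78TSV
open Pool.Agent.H78R3.TSV Pool.Agent.Y604.QF
open Finset

section

variable {α : Type} [TEnc α]

theorem upoly_rK {S : α → List ER.Con} (hS : Poly S) : UPoly (fun a => rK (S a)) :=
  UPoly.add (UPoly.add (UPoly.mul (UPoly.const 11) (UPoly.length (poly_bsys hS))) (UPoly.const 7))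
    (UPoly.const 100)

theorem poly_rb {S : α → List ER.Con} (hS : Poly S) : Poly (fun a => rb (S a)) :=
  Poly.succ (Poly.sum (poly_svars (poly_bsys hS)))

theorem poly_chain {b K : α → ℕ} (hb : Poly b) (hK : UPoly K) :
    Poly (fun a => chain (b a) (K a)) := by
  refine Poly.cons (poly_con_one hb) ?_
  refine Poly.map (F := fun a j => ER.Con.mul (b a + j) (b a + j) (b a + j + 1)) hK.range ?_
  have h : Poly (fun p : α × ℕ => b p.1 + p.2) := Poly.add (hb.comp (Poly.fst Poly.id))
    (Poly.snd Poly.id)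
  exact poly_con_mul h h (Poly.succ h)

theorem poly_rT {S : α → List ER.Con} (hS : Poly S) : Poly (fun a => rT (S a)) :=
  Poly.append (poly_bsys hS) (poly_chain (poly_rb hS) (upoly_rK hS))

theorem poly_slack2 {N r : α → ℕ} (hN : Poly N) (hr : Poly r) :
    Poly (fun a => slack2 (N a) (r a)) := by
  have h1 := Poly.succ hr
  have h2 : Poly (fun a => N a + 1 + r a) := Poly.add (Poly.succ hN) hr
  exact Poly.pair (Poly.pair (Poly.const 4) (Poly.pair h1 h1))
    (Poly.pair (Poly.pair (Poly.const 1) (Poly.pair h2 h2)) (Poly.const _))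

theorem poly_rsys {S : α → List ER.Con} (hS : Poly S) : Poly (fun a => rsys (S a)) := by
  have hT := poly_rT hS
  have hV := poly_svars hT
  refine Poly.append ?_ ?_
  · exact Poly.map (F := fun a c => hcon (svars (rT (S a))) c) hT
      (poly_hcon (hV.comp (Poly.fst Poly.id)) (Poly.snd Poly.id))
  · refine Poly.map (F := fun a r => slack2 (svars (rT (S a))).length r) (UPoly.length hV).range ?_
    exact poly_slack2 ((Poly.length hV).comp (Poly.fst Poly.id)) (Poly.snd Poly.id)

theorem upoly_rn {S : α → List ER.Con} (hS : Poly S) : UPoly (fun a => rn (S a)) :=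
  UPoly.add (UPoly.mul (UPoly.const 2) (UPoly.length (poly_svars (poly_rT hS)))) (UPoly.const 1)

theorem poly_rq {S : α → List ER.Con} (hS : Poly S) : Poly (fun a => rq (S a)) :=
  poly_ix (poly_svars (poly_rT hS)) (Poly.add (poly_rb hS) (upoly_rK hS).toPoly)

theorem poly_rforms {n q : α → ℕ} {G : α → List QC} (hn : UPoly n) (hq : Poly q) (hG : Poly G) :
    Poly (fun a => rforms (n a) (q a) (G a)) :=
  Poly.cons (Poly.cons (Poly.pair (Poly.const 1) (Poly.pair hq (Poly.const 0))) (Poly.const []))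
    (poly_forms hn hG)

theorem poly_mkInst {n q : α → ℕ} {G : α → List QC} (hn : UPoly n) (hq : Poly q) (hG : Poly G) :
    Poly (fun a => mkInst (n a) (q a) (G a)) := by
  have hF := poly_rforms hn hq hG
  refine Poly.pair (poly_tenL (UPoly.add hn (UPoly.length hF)) hF) ?_
  exact poly_intToRat (Poly.natCast (Poly.mul (Poly.const 48) (Poly.length hG)))

end

/-! ### Membership -/

/-- The value of the trilinear form. -/
def tT (d : ℕ) : Tm :=
  sumTm ((List.range d).map fun k => Tm.mul
    (sumTm ((List.range d).flatMap fun i => (List.range d).map fun j =>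
      Tm.mul (Tm.mul (Tm.var (vw d i j k)) (Tm.var (4 * i))) (Tm.var (4 * j + 1))))
    (Tm.var (4 * k + 2)))

/-- The formula for the values of the variables. -/
def fEx (q : List (List (List ℚ)) × ℚ) : List Fm :=
  fU q.1.length 0 :: fU q.1.length 1 :: fU q.1.length 2 ::
    eqRat (Tm.var (vs q.1.length)) q.2 ::
    Fm.or (Fm.lt (Tm.var (vs q.1.length)) (tT q.1.length))
      (Fm.lt (Tm.var (vs q.1.length)) (Tm.neg (tT q.1.length))) :: fEnt q.1

/-- The formula for a spectral norm larger than the bound, with a given formula for instances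
which are not well-formed. -/
def fSN (φ : Fm) (q : List (List (List ℚ)) × ℚ) : Fm :=
  bif isCubeB q.1 && isPosB q.2 then conj (fEx q) else φ

theorem eval_tT (d : ℕ) (v : ℕ → ℝ) : (tT d).eval v =
    ∑ k ∈ range d, (∑ i ∈ range d, ∑ j ∈ range d, v (vw d i j k) * v (4 * i) * v (4 * j + 1)) *
      v (4 * k + 2) := by
  unfold tT
  rw [eval_sumTm, List.map_map, ← sum_list_range]
  congr 1
  apply List.map_congr_left
  intro k _
  simp only [Function.comp_apply, Tm.eval, eval_sumTm, sum_flatMap_range, sum_list_range]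

theorem exceeds_iff_etr {q : List (List (List ℚ)) × ℚ} :
    Exceeds q.1.length (fun i j k => ((entry q.1 i j k : ℚ) : ℝ)) (q.2 : ℝ) ↔
      ETR (conj (fEx q)) := by
  unfold ETR fEx
  simp_rw [holds_conj, List.forall_mem_cons, holds_fU, holds_fEnt, holds_eqRat]
  simp only [Fm.Holds, Tm.eval, eval_tT]
  generalize hd : q.1.length = d
  constructor
  · rintro ⟨x, y, z, hx, hy, hz, g⟩
    let v : ℕ → ℝ := fun n => if n % 4 = 0 then x (n / 4) else if n % 4 = 1 then y (n / 4) else
      if n % 4 = 2 then z (n / 4) else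
      if n / 4 = d * d * d then (q.2 : ℝ) else
        ((entry q.1 (n / 4 / d / d) (n / 4 / d % d) (n / 4 % d) : ℚ) : ℝ)
    have v0 : ∀ i, v (4 * i) = x i := by
      intro i
      simp only [v]
      rw [if_pos (by omega)]
      congr 1; omega
    have v0' : ∀ i, v (4 * i + 0) = x i := v0
    have v1 : ∀ i, v (4 * i + 1) = y i := by
      intro i
      simp only [v]
      rw [if_neg (by omega), if_pos (by omega)]
      congr 1; omega
    have v2 : ∀ i, v (4 * i + 2) = z i := by
      intro i
      simp only [v]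
      rw [if_neg (by omega), if_neg (by omega), if_pos (by omega)]
      congr 1; omega
    have v3 : v (vs d) = (q.2 : ℝ) := by
      simp only [v, vs]
      rw [if_neg (by omega), if_neg (by omega), if_neg (by omega), if_pos (by omega)]
    have v4 : ∀ i < d, ∀ j < d, ∀ k < d, v (vw d i j k) = ((entry q.1 i j k : ℚ) : ℝ) := by
      intro i hi j hj k hk
      have e0 : (4 * ((i * d + j) * d + k) + 3) / 4 = (i * d + j) * d + k := by omega
      have hd0 : 0 < d := by omega
      have e1 : ((i * d + j) * d + k) % d = k := by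
        rw [Nat.mul_comm, Nat.mul_add_mod, Nat.mod_eq_of_lt hk]
      have e2 : ((i * d + j) * d + k) / d = i * d + j := by
        rw [Nat.mul_comm, Nat.mul_add_div hd0, Nat.div_eq_of_lt hk, Nat.add_zero]
      have e3 : (i * d + j) % d = j := by
        rw [Nat.mul_comm, Nat.mul_add_mod, Nat.mod_eq_of_lt hj]
      have e4 : (i * d + j) / d = i := by
        rw [Nat.mul_comm, Nat.mul_add_div hd0, Nat.div_eq_of_lt hj, Nat.add_zero]
      have e5 : (i * d + j) * d + k ≠ d * d * d := by
        have h5 : i * d + j < d * d := by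
          calc i * d + j < i * d + d := by omega
            _ = (i + 1) * d := by ring
            _ ≤ d * d := Nat.mul_le_mul_right _ hi
        have h6 : (i * d + j) * d + k < d * d * d := by
          calc (i * d + j) * d + k < (i * d + j) * d + d := by omega
            _ = (i * d + j + 1) * d := by ring
            _ ≤ d * d * d := Nat.mul_le_mul_right _ h5
        omega
      simp only [v, vw]
      rw [if_neg (by omega), if_neg (by omega), if_neg (by omega), e0, if_neg e5, e2, e4, e1, e3]
    refine ⟨v, ?_, ?_, ?_, v3, ?_, v4⟩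
    · simp_rw [v0']; exact hx
    · simp_rw [v1]; exact hy
    · simp_rw [v2]; exact hz
    · have e : ∑ k ∈ range d, (∑ i ∈ range d, ∑ j ∈ range d,
          v (vw d i j k) * v (4 * i) * v (4 * j + 1)) * v (4 * k + 2) =
          ∑ k ∈ range d, (∑ i ∈ range d, ∑ j ∈ range d,
            ((entry q.1 i j k : ℚ) : ℝ) * x i * y j) * z k :=
        Finset.sum_congr rfl fun k hk => by
          rw [v2]
          congr 1
          exact Finset.sum_congr rfl fun i hi => Finset.sum_congr rfl fun j hj => by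
            rw [v4 i (Finset.mem_range.1 hi) j (Finset.mem_range.1 hj) k (Finset.mem_range.1 hk),
              v0, v1]
      rw [e, v3]
      exact lt_abs.1 g
  · rintro ⟨v, hx, hy, hz, v3, g, v4⟩
    refine ⟨fun i => v (4 * i), fun i => v (4 * i + 1), fun i => v (4 * i + 2), hx, hy, hz, ?_⟩
    have e : ∑ k ∈ range d, (∑ i ∈ range d, ∑ j ∈ range d,
        v (vw d i j k) * v (4 * i) * v (4 * j + 1)) * v (4 * k + 2) =
        ∑ k ∈ range d, (∑ i ∈ range d, ∑ j ∈ range d,
          ((entry q.1 i j k : ℚ) : ℝ) * v (4 * i) * v (4 * j + 1)) * v (4 * k + 2) :=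
      Finset.sum_congr rfl fun k hk => by
        congr 1
        exact Finset.sum_congr rfl fun i hi => Finset.sum_congr rfl fun j hj => by
          rw [v4 i (Finset.mem_range.1 hi) j (Finset.mem_range.1 hj) k (Finset.mem_range.1 hk)]
    rw [e, v3] at g
    exact lt_abs.2 g

theorem fSN_true {φ : Fm} {q : List (List (List ℚ)) × ℚ} (h : IsCube q.1 ∧ 0 < q.2) :
    fSN φ q = conj (fEx q) := by
  unfold fSN
  rw [(isCubeB_iff _).2 h.1, (isPosB_iff _).2 h.2]
  rfl

theorem fSN_false {φ : Fm} {q : List (List (List ℚ)) × ℚ} (h : ¬ (IsCube q.1 ∧ 0 < q.2)) :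
    fSN φ q = φ := by
  have hb : (isCubeB q.1 && isPosB q.2) = false := by
    rw [Bool.eq_false_iff]
    intro h'
    have := Bool.and_eq_true_iff.1 h'
    exact h ⟨(isCubeB_iff _).1 this.1, (isPosB_iff _).1 this.2⟩
  unfold fSN
  rw [hb, cond_false]

theorem exceed_iff_etr (q : List (List (List ℚ)) × ℚ) :
    SpectralNormExceed q ↔ ETR (fSN H670R2.ff q) := by
  rw [exceed_iff]
  by_cases h : IsCube q.1 ∧ 0 < q.2
  · rw [fSN_true h, ← exceeds_iff_etr]
    exact ⟨fun h' => h'.2.2, fun h' => ⟨h.1, h.2, h'⟩⟩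
  · rw [fSN_false h]
    exact ⟨fun h' => absurd ⟨h'.1, h'.2.1⟩ h, fun h' => absurd h' H670R2.not_etr_ff⟩

theorem not_bound_iff_etr (q : List (List (List ℚ)) × ℚ) :
    ¬ SpectralNormBound q ↔ ETR (fSN H670R2.tt q) := by
  by_cases h : IsCube q.1 ∧ 0 < q.2
  · rw [bound_iff h, not_not, exceed_iff_etr, fSN_true h, fSN_true h]
  · rw [fSN_false h]
    refine ⟨fun _ => ⟨fun _ => 0, holds_tt _⟩, fun _ h' => h ⟨h'.1, h'.2.1⟩⟩

section

variable {α : Type} [TEnc α]

theorem poly_tT {d : α → ℕ} (hd : UPoly d) : Poly (fun a => tT (d a)) := by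
  refine poly_sumTm ?_
  refine Poly.map (F := fun a k => Tm.mul
    (sumTm ((List.range (d a)).flatMap fun i => (List.range (d a)).map fun j =>
      Tm.mul (Tm.mul (Tm.var (vw (d a) i j k)) (Tm.var (4 * i))) (Tm.var (4 * j + 1))))
    (Tm.var (4 * k + 2))) hd.range ?_
  have a1 : Poly (fun p : α × ℕ => p.1) := Poly.fst Poly.id
  have a2 : Poly (fun p : α × ℕ => p.2) := Poly.snd Poly.id
  have e1 : Poly (fun p : ((α × ℕ) × ℕ) × ℕ => p.1.1.1) :=
    Poly.fst (Poly.fst (Poly.fst Poly.id))
  have e2 : Poly (fun p : ((α × ℕ) × ℕ) × ℕ => p.1.1.2) :=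
    Poly.snd (Poly.fst (Poly.fst Poly.id))
  have e3 : Poly (fun p : ((α × ℕ) × ℕ) × ℕ => p.1.2) := Poly.snd (Poly.fst Poly.id)
  have e4 : Poly (fun p : ((α × ℕ) × ℕ) × ℕ => p.2) := Poly.snd Poly.id
  refine poly_tmul ?_ (poly_lin a2 2)
  refine poly_sum2 (F := fun (p : α × ℕ) i j => Tm.mul (Tm.mul (Tm.var (vw (d p.1) i j p.2))
    (Tm.var (4 * i))) (Tm.var (4 * j + 1))) (hd.comp a1) ?_
  exact poly_tmul (poly_tmul (poly_tvar (poly_vw (hd.toPoly.comp e1) e3 e4 e2)) (poly_lin0 e3))
    (poly_lin e4 1)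

theorem poly_fSN (φ : Fm) : Poly (fSN φ) := by
  have h1 : Poly (fun q : List (List (List ℚ)) × ℚ => q.1) := Poly.fst Poly.id
  have h2 : Poly (fun q : List (List (List ℚ)) × ℚ => q.2) := Poly.snd Poly.id
  have hd : UPoly (fun q : List (List (List ℚ)) × ℚ => q.1.length) := UPoly.length h1
  refine Poly.cond (Poly.and ?_ ?_) (poly_conj ?_) (Poly.const _)
  · refine Poly.all (p := fun (q : List (List (List ℚ)) × ℚ) a =>
      decide (a.length = q.1.length) && a.all fun b => decide (b.length = q.1.length)) h1 ?_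
    refine Poly.and (Poly.decide_eq (Poly.length (Poly.snd Poly.id))
      (hd.toPoly.comp (Poly.fst Poly.id))) ?_
    refine Poly.all (p := fun (r : (List (List (List ℚ)) × ℚ) × List (List ℚ)) b =>
      decide (b.length = r.1.1.length)) (Poly.snd Poly.id) ?_
    exact Poly.decide_eq (Poly.length (Poly.snd Poly.id))
      (hd.toPoly.comp (Poly.fst (Poly.fst Poly.id)))
  · exact Poly.and (Poly.not (poly_isNeg (poly_ratNum h2)))
      (Poly.not (Poly.decide_eq (poly_natAbs (poly_ratNum h2)) (Poly.const 0)))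
  · have hv := poly_tvar (poly_vs hd.toPoly)
    exact Poly.cons (poly_fU hd 0) (Poly.cons (poly_fU hd 1) (Poly.cons (poly_fU hd 2)
      (Poly.cons (poly_eqRat hv h2) (Poly.cons
        (poly_or (poly_lt hv (poly_tT hd)) (poly_lt hv (poly_tneg (poly_tT hd))))
        (poly_fEnt h1)))))

end

theorem exceed_mem : InER (lang SpectralNormExceed) :=
  ER.InER.of_poly (poly_fSN H670R2.ff) exceed_iff_etr

theorem exceed_hard : ERHard (lang SpectralNormExceed) :=
  ERHard.of_sys (poly_mkInst (upoly_rn Poly.id) (poly_rq Poly.id) (poly_rsys Poly.id))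
    sat_iff_exceed

theorem bound_mem : InAR (lang SpectralNormBound) :=
  InAR.of_poly (poly_fSN H670R2.tt) not_bound_iff_etr

theorem bound_hard : ARHard (lang SpectralNormBound) :=
  ARHard.of_sys (poly_mkInst (upoly_rn Poly.id) (poly_rq Poly.id) (poly_rsys Poly.id))
    fun S => by
      have h := isCube_mkInst (n := rn S) (q := rq S) (hundred_le_length S)
      rw [sat_iff_exceed]
      show _ ↔ ¬ SpectralNormBound (mkInst (rn S) (rq S) (rsys S))
      rw [bound_iff h, not_not]

theorem spectral_complete :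
    ARComplete (lang SpectralNormBound) ∧ ERComplete (lang SpectralNormExceed) :=
  ⟨⟨bound_mem, bound_hard⟩, ⟨exceed_mem, exceed_hard⟩⟩

end Pool.Agent.NPC.Y604QF
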