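import Pool.Agent.H78R3.TSV.Red
import Pool.Agent.ER.GapSys

/-!
# A robust homogeneous quadratic system

A system `S` of constraints is turned into a list `rsys S` of homogeneous quadratic constraints in
`rn S` variables and an index `rq S` such that

* if `S` is satisfiable then there is `x` with `x 0 * x (rq S) ≠ 0` at which all constraints of
  `rsys S` vanish;
* if there is `x` with `x 0 * x (rq S) ≠ 0` at which all constraints of `rsys S` are small compared
  with `x 0 * x (rq S)` then `S` is satisfiable.

The variable number `rq S` is the end of a chain of squarings, so that it is forced to be doubly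
exponentially small; the gap theorem applies.
-/

namespace Pool.Agent.Y604.QF

open Finset Pool.Agent.NPC Pool.Agent.NPC.ER Pool.Agent.H78R3.TSV

/-- The length of the chain. -/
def rK (S : List ER.Con) : ℕ := gapK (bsys S).length + 100

/-- The first variable of the chain. -/
def rb (S : List ER.Con) : ℕ := (svars (bsys S)).sum + 1

/-- The chain. -/
def chain (b K : ℕ) : List ER.Con :=
  ER.Con.one b :: (List.range K).map (fun j => ER.Con.mul (b + j) (b + j) (b + j + 1))

/-- The system with the chain. -/
def rT (S : List ER.Con) : List ER.Con := bsys S ++ chain (rb S) (rK S)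

/-- The bound `(2x)² + s² = x₀²`. -/
def slack2 (N r : ℕ) : QC := ((4, r + 1, r + 1), (1, N + 1 + r, N + 1 + r), (-1, 0, 0))

/-- The homogeneous system. -/
def rsys (S : List ER.Con) : List QC :=
  (rT S).map (hcon (svars (rT S))) ++
    (List.range (svars (rT S)).length).map (slack2 (svars (rT S)).length)

/-- The number of variables. -/
def rn (S : List ER.Con) : ℕ := 2 * (svars (rT S)).length + 1

/-- The index of the small variable. -/
def rq (S : List ER.Con) : ℕ := ix (svars (rT S)) (rb S + rK S)

theorem mem_chain_last (b K : ℕ) : ∃ c ∈ chain b K, b + K ∈ c.vars := by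
  rcases Nat.eq_zero_or_pos K with h | h
  · exact ⟨ER.Con.one b, by simp [chain], by simp [Con.vars, h]⟩
  · refine ⟨ER.Con.mul (b + (K - 1)) (b + (K - 1)) (b + (K - 1) + 1), ?_, ?_⟩
    · unfold chain
      exact List.mem_cons_of_mem _ (List.mem_map.2 ⟨K - 1, List.mem_range.2 (by omega), rfl⟩)
    · simp only [Con.vars, List.mem_cons, List.not_mem_nil, or_false]
      omega

theorem rq_lt (S : List ER.Con) : rq S < (svars (rT S)).length + 1 ∧ 0 < rq S := by
  obtain ⟨c, hc, h⟩ := mem_chain_last (rb S) (rK S)
  exact ⟨ix_lt (T := rT S) (List.mem_append_right _ hc) h, by unfold rq ix; omega⟩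

theorem rq_lt_rn (S : List ER.Con) : rq S < rn S := by
  have := (rq_lt S).1
  unfold rn
  omega

theorem rsys_ok (S : List ER.Con) : ∀ g ∈ rsys S, GOk (rn S) g := by
  intro g hg
  unfold rsys at hg
  rw [List.mem_append, List.mem_map, List.mem_map] at hg
  rcases hg with ⟨c, hc, rfl⟩ | ⟨r, hr, rfl⟩
  · cases c with
    | one i =>
      have h1 := ix_lt hc (i := i) (by simp [Con.vars])
      refine ⟨⟨by simp [hcon], ?_, ?_⟩, ⟨by simp [hcon], ?_, ?_⟩, ⟨by simp [hcon], ?_, ?_⟩⟩ <;>
        simp only [hcon, rn] <;> omega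
    | add i j k =>
      have h1 := ix_lt hc (i := i) (by simp [Con.vars])
      have h2 := ix_lt hc (i := j) (by simp [Con.vars])
      have h3 := ix_lt hc (i := k) (by simp [Con.vars])
      refine ⟨⟨by simp [hcon], ?_, ?_⟩, ⟨by simp [hcon], ?_, ?_⟩, ⟨by simp [hcon], ?_, ?_⟩⟩ <;>
        simp only [hcon, rn] <;> omega
    | mul i j k =>
      have h1 := ix_lt hc (i := i) (by simp [Con.vars])
      have h2 := ix_lt hc (i := j) (by simp [Con.vars])
      have h3 := ix_lt hc (i := k) (by simp [Con.vars])
      refine ⟨⟨by simp [hcon], ?_, ?_⟩, ⟨by simp [hcon], ?_, ?_⟩, ⟨by simp [hcon], ?_, ?_⟩⟩ <;>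
        simp only [hcon, rn] <;> omega
  · have := List.mem_range.1 hr
    refine ⟨⟨by simp [slack2], ?_, ?_⟩, ⟨by simp [slack2], ?_, ?_⟩,
      ⟨by simp [slack2], ?_, ?_⟩⟩ <;> simp only [slack2, rn] <;> omega

theorem hundred_le_length (S : List ER.Con) : 100 ≤ (rsys S).length := by
  unfold rsys rT chain rK
  simp only [List.length_append, List.length_map, List.length_cons, List.length_range]
  omega

/-- The value of the homogeneous constraint of a constraint. -/
theorem gev_hcon (V : List ℕ) (x : ℕ → ℝ) (hx0 : x 0 ≠ 0) (c : ER.Con) :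
    gev x x (hcon V c) = 2 * x 0 ^ 2 * c.err (fun i => x (ix V i) / x 0) := by
  cases c with
  | one i =>
    simp only [gev, tev, bev, hcon, Con.err]
    push_cast
    field_simp
    ring
  | add i j k =>
    simp only [gev, tev, bev, hcon, Con.err]
    push_cast
    field_simp
    ring
  | mul i j k =>
    simp only [gev, tev, bev, hcon, Con.err]
    push_cast
    field_simp
    ring

/-- **Soundness of the robust system.** -/
theorem sat_of_robust (S : List ER.Con) (x : ℕ → ℝ) (hB : bev x x (rq S, 0) ≠ 0)
    (hg : ∀ g ∈ rsys S, |gev x x g| ≤ 1 / 4 * |bev x x (rq S, 0)|) : Sat S := by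
  set V := svars (rT S) with hV
  set N := V.length with hN
  have hBe : bev x x (rq S, 0) = 2 * (x (rq S) * x 0) := by unfold bev; simp only; ring
  have hx0 : x 0 ≠ 0 := by
    intro h
    rw [hBe, h] at hB
    simp at hB
  have hpos : 0 < 2 * x 0 ^ 2 := by positivity
  set w : ℕ → ℝ := fun i => x (ix V i) / x 0 with hw
  set m : ℝ := |w (rb S + rK S)| with hm
  have hBm : |bev x x (rq S, 0)| = 2 * x 0 ^ 2 * m := by
    have e : bev x x (rq S, 0) = 2 * x 0 ^ 2 * w (rb S + rK S) := by
      rw [hBe, hw]
      simp only [rq, ← hV]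
      field_simp
    rw [e, abs_mul, abs_of_pos hpos]
  have hm0 : 0 ≤ m := abs_nonneg _
  have herr : ∀ c ∈ rT S, |c.err w| ≤ m / 4 := by
    intro c hc
    have h1 := hg (hcon V c) (by
      unfold rsys
      exact List.mem_append_left _ (List.mem_map.2 ⟨c, hc, rfl⟩))
    rw [gev_hcon V x hx0, abs_mul, abs_of_pos hpos, hBm] at h1
    have h2 : 2 * x 0 ^ 2 * |c.err w| ≤ 2 * x 0 ^ 2 * (m / 4) := by linarith
    exact le_of_mul_le_mul_left h2 hpos
  have hsl : ∀ r < N, 4 * (x (r + 1) / x 0) ^ 2 ≤ 1 + m / 4 := by
    intro r hr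
    have h1 := hg (slack2 N r) (by
      unfold rsys
      exact List.mem_append_right _ (List.mem_map.2 ⟨r, List.mem_range.2 hr, rfl⟩))
    have h2 : gev x x (slack2 N r) = 2 * x 0 ^ 2 * (4 * (x (r + 1) / x 0) ^ 2 +
        (x (N + 1 + r) / x 0) ^ 2 - 1) := by
      simp only [gev, tev, bev, slack2]
      push_cast
      field_simp
      ring
    rw [h2, abs_mul, abs_of_pos hpos, hBm] at h1
    have h3 : 2 * x 0 ^ 2 * |4 * (x (r + 1) / x 0) ^ 2 + (x (N + 1 + r) / x 0) ^ 2 - 1| ≤
        2 * x 0 ^ 2 * (m / 4) := by linarith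
    have h4 := le_of_mul_le_mul_left h3 hpos
    have h5 := (abs_le.1 h4).2
    have h6 := sq_nonneg (x (N + 1 + r) / x 0)
    linarith
  have hwV : ∀ i ∈ V, 4 * w i ^ 2 ≤ 1 + m / 4 := by
    intro i hi
    exact hsl (V.idxOf i) (List.idxOf_lt_length_of_mem hi)
  have hmV : rb S + rK S ∈ V := by
    obtain ⟨c, hc, h⟩ := mem_chain_last (rb S) (rK S)
    exact mem_svars (S := rT S) (List.mem_append_right _ hc) h
  have hm1 : m ≤ 1 := by
    have h1 := hwV _ hmV
    have h2 : w (rb S + rK S) ^ 2 = m ^ 2 := by rw [hm, sq_abs]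
    rw [h2] at h1
    nlinarith
  have hw1 : ∀ i ∈ V, |w i| ≤ 3 / 5 := by
    intro i hi
    have h1 := hwV i hi
    apply abs_le_of_sq_le_sq _ (by norm_num)
    nlinarith
  -- the chain
  have hcV : ∀ j ≤ rK S, rb S + j ∈ V := by
    intro j hj
    rcases Nat.eq_zero_or_pos j with h | h
    · exact mem_svars (S := rT S) (c := ER.Con.one (rb S))
        (List.mem_append_right _ (by simp [chain])) (by simp [Con.vars, h])
    · refine mem_svars (S := rT S) (c := ER.Con.mul (rb S + (j - 1)) (rb S + (j - 1))
        (rb S + (j - 1) + 1)) (List.mem_append_right _ ?_) ?_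
      · unfold chain
        exact List.mem_cons_of_mem _ (List.mem_map.2 ⟨j - 1, List.mem_range.2 (by omega), rfl⟩)
      · simp only [Con.vars, List.mem_cons, List.not_mem_nil, or_false]
        omega
  have h0 : |w (rb S)| ≤ 1 / 4 := by
    have h1 := herr (ER.Con.one (rb S)) (List.mem_append_right _ (by simp [chain]))
    simp only [Con.err] at h1
    have h2 := abs_le.1 h1
    rw [abs_le]
    constructor <;> linarith [h2.1, h2.2]
  have hstep : ∀ j < rK S, |w (rb S + j + 1)| ≤ |w (rb S + j)| ^ 2 + m / 4 := by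
    intro j hj
    have h1 := herr (ER.Con.mul (rb S + j) (rb S + j) (rb S + j + 1))
      (List.mem_append_right _ (by
        unfold chain
        exact List.mem_cons_of_mem _ (List.mem_map.2 ⟨j, List.mem_range.2 hj, rfl⟩)))
    simp only [Con.err] at h1
    have h2 : |w (rb S + j + 1)| ≤ |w (rb S + j) * w (rb S + j)| +
        |w (rb S + j) * w (rb S + j) - w (rb S + j + 1)| := by
      have h3 := abs_sub_abs_le_abs_sub (w (rb S + j + 1)) (w (rb S + j) * w (rb S + j))
      rw [abs_sub_comm] at h3
      linarith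
    rw [abs_mul, ← sq] at h2
    linarith
  have hdown : ∀ d ≤ rK S, m ≤ |w (rb S + (rK S - d))| := by
    intro d
    induction d with
    | zero => intro _; rw [Nat.sub_zero]
    | succ d ih =>
      intro hd
      have h1 := ih (by omega)
      have h2 := hstep (rK S - (d + 1)) (by omega)
      have h3 : rb S + (rK S - (d + 1)) + 1 = rb S + (rK S - d) := by omega
      rw [h3] at h2
      have h4 := hw1 _ (hcV (rK S - (d + 1)) (by omega))
      have h5 := abs_nonneg (w (rb S + (rK S - (d + 1))))
      nlinarith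
  have hup : ∀ j ≤ rK S, 2 * |w (rb S + j)| ≤ (1 / 2) ^ 2 ^ j := by
    intro j
    induction j with
    | zero =>
      intro _
      simp only [add_zero, pow_zero, pow_one]
      linarith
    | succ j ih =>
      intro hj
      have h1 := ih (by omega)
      have h2 := hstep j (by omega)
      have h3 := hdown (rK S - (j + 1)) (by omega)
      have h4 : rb S + (rK S - (rK S - (j + 1))) = rb S + j + 1 := by omega
      rw [h4] at h3
      have h5 := abs_nonneg (w (rb S + j))
      have h6 : 2 * |w (rb S + (j + 1))| ≤ (2 * |w (rb S + j)|) ^ 2 := by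
        rw [← add_assoc]
        nlinarith
      refine h6.trans ?_
      have h7 : ((1 : ℝ) / 2) ^ 2 ^ (j + 1) = ((1 / 2) ^ 2 ^ j) ^ 2 := by
        rw [← pow_mul, pow_succ]
      rw [h7]
      exact pow_le_pow_left₀ (by positivity) h1 2
  have hmsmall : m ≤ (1 / 2) ^ 2 ^ gapK (bsys S).length := by
    have h1 := hup (rK S) le_rfl
    have h2 : ((1 : ℝ) / 2) ^ 2 ^ rK S ≤ (1 / 2) ^ 2 ^ gapK (bsys S).length := by
      apply pow_le_pow_of_le_one (by norm_num) (by norm_num)
      exact Nat.pow_le_pow_right (by norm_num) (by unfold rK; omega)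
    linarith
  obtain ⟨w', hw'⟩ := holds_of_approx (S := bsys S) (w := w) (fun i hi => by
      have h1 : i ∈ V := by
        rw [hV]
        unfold svars at hi ⊢
        unfold rT
        rw [List.flatMap_append]
        exact List.mem_append_left _ hi
      have := hw1 i h1
      linarith) (fun c hc => by
      have h1 := herr c (List.mem_append_left _ hc)
      have h2 : |c.err w| ≤ (1 / 2) ^ 2 ^ gapK (bsys S).length := by
        linarith
      calc |c.err w| * 2 ^ 2 ^ gapK (bsys S).length ≤
          (1 / 2) ^ 2 ^ gapK (bsys S).length * 2 ^ 2 ^ gapK (bsys S).length :=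
            mul_le_mul_of_nonneg_right h2 (by positivity)
        _ = 1 := by rw [← mul_pow]; norm_num)
  exact sat_of_bsys hw'

/-- The values on the chain. -/
theorem chain_holds {w : ℕ → ℝ} {b K : ℕ} (h : ∀ j ≤ K, w (b + j) = (1 / 8) ^ 2 ^ j) :
    ∀ c ∈ chain b K, c.HoldsC (1 / 8) w := by
  intro c hc
  unfold chain at hc
  rcases List.mem_cons.1 hc with rfl | hc
  · simpa [Con.HoldsC] using h 0 (Nat.zero_le _)
  · obtain ⟨j, hj, rfl⟩ := List.mem_map.1 hc
    have hj := List.mem_range.1 hj
    simp only [Con.HoldsC]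
    rw [h j (by omega), add_assoc, h (j + 1) (by omega), ← pow_add, pow_succ]
    congr 1
    ring

/-- **Completeness of the robust system.** -/
theorem robust_of_sat {S : List ER.Con} (h : Sat S) : ∃ x : ℕ → ℝ, bev x x (rq S, 0) ≠ 0 ∧
    (∀ i, rn S ≤ i → x i = 0) ∧ ∀ g ∈ rsys S, gev x x g = 0 := by
  obtain ⟨w₀, hw₀, hc₀⟩ := bsys_of_sat h
  have hlt : ∀ i ∈ svars (bsys S), i < rb S := by
    intro i hi
    have := List.single_le_sum (by simp) i hi
    unfold rb
    omega
  let w : ℕ → ℝ := fun i => if i < rb S then w₀ i else (1 / 8) ^ 2 ^ (i - rb S)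
  have hw : ∀ i, |w i| ≤ 1 / 8 := by
    intro i
    simp only [w]
    split_ifs
    · exact hw₀ i
    · rw [abs_of_nonneg (by positivity)]
      calc ((1 : ℝ) / 8) ^ 2 ^ (i - rb S) ≤ (1 / 8) ^ 1 :=
            pow_le_pow_of_le_one (by norm_num) (by norm_num) Nat.one_le_two_pow
        _ = 1 / 8 := pow_one _
  have hc : ∀ c ∈ rT S, c.HoldsC (1 / 8) w := by
    intro c hc
    rcases List.mem_append.1 hc with hc | hc
    · have h1 := hc₀ c hc
      have h2 : ∀ i ∈ c.vars, w i = w₀ i := by
        intro i hi
        simp only [w]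
        rw [if_pos (hlt i (mem_svars hc hi))]
      cases c with
      | one i =>
        simp only [Con.HoldsC] at h1 ⊢
        rw [h2 i (by simp [Con.vars]), h1]
      | add i j k =>
        simp only [Con.HoldsC] at h1 ⊢
        rw [h2 i (by simp [Con.vars]), h2 j (by simp [Con.vars]), h2 k (by simp [Con.vars]), h1]
      | mul i j k =>
        simp only [Con.HoldsC] at h1 ⊢
        rw [h2 i (by simp [Con.vars]), h2 j (by simp [Con.vars]), h2 k (by simp [Con.vars]), h1]
    · refine chain_holds (fun j _ => ?_) c hc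
      simp only [w]
      rw [if_neg (by omega), Nat.add_sub_cancel_left]
  set T := rT S with hT
  set V := svars T with hV
  set N := V.length with hN
  let x : ℕ → ℝ := fun i => if i = 0 then 1 else if i < N + 1 then w (V.getD (i - 1) 0) else
    if i < 2 * N + 1 then Real.sqrt (1 - 4 * w (V.getD (i - (N + 1)) 0) ^ 2) else 0
  have x0 : x 0 = 1 := by simp [x]
  have x1 : ∀ r < N, x (r + 1) = w (V.getD r 0) := by
    intro r hr
    simp only [x]
    rw [if_neg (by omega), if_pos (by omega)]
    simp
  have x2 : ∀ r < N, x (N + 1 + r) = Real.sqrt (1 - 4 * w (V.getD r 0) ^ 2) := by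
    intro r hr
    simp only [x]
    rw [if_neg (by omega), if_neg (by omega), if_pos (by omega)]
    congr 6
    omega
  have xi : ∀ i ∈ V, x (ix V i) = w i := by
    intro i hi
    have h1 := List.idxOf_lt_length_of_mem hi
    unfold ix
    rw [x1 _ h1, List.getD_eq_getElem _ _ h1, List.getElem_idxOf h1]
  refine ⟨x, ?_, ?_, fun g hg => ?_⟩
  · have hmV : rb S + rK S ∈ V := by
      obtain ⟨c, hc, h⟩ := mem_chain_last (rb S) (rK S)
      exact mem_svars (S := T) (List.mem_append_right _ hc) h
    have e1 : x (rq S) = (1 / 8) ^ 2 ^ rK S := by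
      unfold rq
      rw [← hT, ← hV, xi _ hmV]
      simp only [w]
      rw [if_neg (by omega), Nat.add_sub_cancel_left]
    unfold bev
    simp only [x0, e1]
    positivity
  · intro i hi
    simp only [x]
    unfold rn at hi
    rw [← hT, ← hV, ← hN] at hi
    rw [if_neg (by omega), if_neg (by omega), if_neg (by omega)]
  · unfold rsys at hg
    rw [List.mem_append, List.mem_map, List.mem_map] at hg
    rcases hg with ⟨c, hcT, rfl⟩ | ⟨r, hr, rfl⟩
    · rw [gev_hcon _ _ (by rw [x0]; norm_num), x0]
      have hh := hc c hcT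
      have hx : ∀ i ∈ c.vars, x (ix V i) / 1 = w i := by
        intro i hi
        rw [div_one, xi i (mem_svars hcT hi)]
      cases c with
      | one i =>
        simp only [Con.HoldsC] at hh
        simp only [Con.err]
        rw [← hT, ← hV, hx i (by simp [Con.vars]), hh]
        norm_num
      | add i j k =>
        simp only [Con.HoldsC] at hh
        simp only [Con.err]
        rw [← hT, ← hV, hx i (by simp [Con.vars]), hx j (by simp [Con.vars]),
          hx k (by simp [Con.vars]), hh]
        norm_num
      | mul i j k =>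
        simp only [Con.HoldsC] at hh
        simp only [Con.err]
        rw [← hT, ← hV, hx i (by simp [Con.vars]), hx j (by simp [Con.vars]),
          hx k (by simp [Con.vars]), hh]
        norm_num
    · have hr := List.mem_range.1 hr
      simp only [gev, tev, bev, slack2]
      rw [← hT, ← hV, ← hN, x1 r hr, x2 r hr, x0]
      push_cast
      have h1 : 0 ≤ 1 - 4 * w (V.getD r 0) ^ 2 := by
        have := hw (V.getD r 0)
        have h2 : w (V.getD r 0) ^ 2 ≤ (1 / 8) ^ 2 := by
          rw [← sq_abs]
          exact pow_le_pow_left₀ (abs_nonneg _) this 2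
        linarith
      have h2 := Real.mul_self_sqrt h1
      nlinarith

end Pool.Agent.Y604.QF
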