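import Pool.Agent.H78R3.TSV.Defs
import Pool.Agent.H612.AR

/-!
# The spectral norm of a tensor: the decision problems
-/

namespace Pool.Agent.Y604.QF

open Pool.Agent.H78R3.TSV

/-- The trilinear form `T(x,y,z) = ∑ t_{ijk} x_i y_j z_k` of a tensor. -/
noncomputable def triform {d : ℕ} (t : Fin d → Fin d → Fin d → ℝ)
    (x y z : EuclideanSpace ℝ (Fin d)) : ℝ := ∑ i, ∑ j, ∑ k, t i j k * x i * y j * z k

/-- The spectral norm of a tensor: the supremum of `|T(x,y,z)|` over all triples of unit
vectors. -/
noncomputable def spectralNorm {d : ℕ} (t : Fin d → Fin d → Fin d → ℝ) : ℝ :=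
  sSup {r | ∃ x y z : EuclideanSpace ℝ (Fin d), ‖x‖ = 1 ∧ ‖y‖ = 1 ∧ ‖z‖ = 1 ∧
    r = |triform t x y z|}

/-- The `d × d × d` tensor given by a nested list of rational numbers of length `d`. -/
def tensorOf (t : List (List (List ℚ))) : Fin t.length → Fin t.length → Fin t.length → ℝ :=
  fun i j k => ((entry t i j k : ℚ) : ℝ)

/-- SPECTRAL-NORM-BOUND: given a `d × d × d` tensor with rational entries and a positive rational
number `σ`, is the spectral norm of the tensor at most `σ`? -/
def SpectralNormBound (q : List (List (List ℚ)) × ℚ) : Prop :=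
  IsCube q.1 ∧ 0 < q.2 ∧ spectralNorm (tensorOf q.1) ≤ q.2

/-- SPECTRAL-NORM-EXCEED: given a `d × d × d` tensor with rational entries and a positive rational
number `σ`, is the spectral norm of the tensor larger than `σ`? -/
def SpectralNormExceed (q : List (List (List ℚ)) × ℚ) : Prop :=
  IsCube q.1 ∧ 0 < q.2 ∧ (q.2 : ℝ) < spectralNorm (tensorOf q.1)

end Pool.Agent.Y604.QF
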