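import Pool.Agent.Y604.QF.Core
import Pool.Agent.Y604.QF.SNDefs

/-!
# The spectral norm of the tensor of a robust system
-/

namespace Pool.Agent.Y604.QF

open Finset Pool.Agent.NPC Pool.Agent.NPC.ER Pool.Agent.H78R3.TSV

/-- A version with vectors indexed by all natural numbers. -/
def Exceeds (d : ℕ) (t : ℕ → ℕ → ℕ → ℝ) (σ : ℝ) : Prop :=
  ∃ x y z : ℕ → ℝ, ∑ i ∈ range d, x i ^ 2 = 1 ∧ ∑ i ∈ range d, y i ^ 2 = 1 ∧
    ∑ i ∈ range d, z i ^ 2 = 1 ∧
    σ < |∑ k ∈ range d, (∑ i ∈ range d, ∑ j ∈ range d, t i j k * x i * y j) * z k|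

theorem tri_range {d : ℕ} (t : ℕ → ℕ → ℕ → ℝ) (x y z : EuclideanSpace ℝ (Fin d))
    (X Y Z : ℕ → ℝ) (eX : ∀ i : Fin d, X i = x i) (eY : ∀ i : Fin d, Y i = y i)
    (eZ : ∀ i : Fin d, Z i = z i) :
    ∑ k ∈ range d, (∑ i ∈ range d, ∑ j ∈ range d, t i j k * X i * Y j) * Z k =
      triform (fun i j k : Fin d => t i j k) x y z := by
  unfold triform
  rw [← Fin.sum_univ_eq_sum_range (fun k => (∑ i ∈ range d, ∑ j ∈ range d,
    t i j k * X i * Y j) * Z k)]
  simp_rw [← Fin.sum_univ_eq_sum_range (fun i => ∑ j ∈ range d, t i j _ * X i * Y j),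
    ← Fin.sum_univ_eq_sum_range (fun j => t _ j _ * X _ * Y j), eX, eY, eZ]
  simp_rw [Finset.sum_mul]
  rw [Finset.sum_comm]
  apply Finset.sum_congr rfl
  intro i _
  rw [Finset.sum_comm]

theorem abs_coord_le {d : ℕ} {x : EuclideanSpace ℝ (Fin d)} (h : ‖x‖ = 1) (i : Fin d) :
    |x i| ≤ 1 := by
  rw [← h]
  exact PiLp.norm_apply_le x i

theorem bdd {d : ℕ} (t : Fin d → Fin d → Fin d → ℝ) :
    BddAbove {r | ∃ x y z : EuclideanSpace ℝ (Fin d), ‖x‖ = 1 ∧ ‖y‖ = 1 ∧ ‖z‖ = 1 ∧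
      r = |triform t x y z|} := by
  refine ⟨∑ i, ∑ j, ∑ k, |t i j k|, ?_⟩
  rintro r ⟨x, y, z, hx, hy, hz, rfl⟩
  unfold triform
  refine (Finset.abs_sum_le_sum_abs _ _).trans (Finset.sum_le_sum fun i _ => ?_)
  refine (Finset.abs_sum_le_sum_abs _ _).trans (Finset.sum_le_sum fun j _ => ?_)
  refine (Finset.abs_sum_le_sum_abs _ _).trans (Finset.sum_le_sum fun k _ => ?_)
  rw [abs_mul, abs_mul, abs_mul]
  have h1 := abs_coord_le hx i
  have h2 := abs_coord_le hy j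
  have h3 := abs_coord_le hz k
  have h4 : |t i j k| * |x i| ≤ |t i j k| := mul_le_of_le_one_right (abs_nonneg _) h1
  have h5 : |t i j k| * |x i| * |y j| ≤ |t i j k| :=
    (mul_le_of_le_one_right (mul_nonneg (abs_nonneg _) (abs_nonneg _)) h2).trans h4
  exact (mul_le_of_le_one_right (mul_nonneg (mul_nonneg (abs_nonneg _) (abs_nonneg _))
    (abs_nonneg _)) h3).trans h5

/-- The spectral norm is larger than `σ ≥ 0` iff some value of the form is. -/
theorem lt_spectralNorm {d : ℕ} (t : Fin d → Fin d → Fin d → ℝ) {σ : ℝ} (hσ : 0 ≤ σ) :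
    σ < spectralNorm t ↔ ∃ x y z : EuclideanSpace ℝ (Fin d), ‖x‖ = 1 ∧ ‖y‖ = 1 ∧ ‖z‖ = 1 ∧
      σ < |triform t x y z| := by
  unfold spectralNorm
  set A := {r | ∃ x y z : EuclideanSpace ℝ (Fin d), ‖x‖ = 1 ∧ ‖y‖ = 1 ∧ ‖z‖ = 1 ∧
      r = |triform t x y z|} with hA
  rcases A.eq_empty_or_nonempty with h | h
  · rw [h, Real.sSup_empty]
    constructor
    · intro h'; linarith
    · rintro ⟨x, y, z, hx, hy, hz, -⟩
      exfalso
      have : |triform t x y z| ∈ A := ⟨x, y, z, hx, hy, hz, rfl⟩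
      rw [h] at this
      exact this
  · rw [lt_csSup_iff (bdd t) h]
    constructor
    · rintro ⟨r, ⟨x, y, z, hx, hy, hz, rfl⟩, h2⟩
      exact ⟨x, y, z, hx, hy, hz, h2⟩
    · rintro ⟨x, y, z, hx, hy, hz, h2⟩
      exact ⟨_, ⟨x, y, z, hx, hy, hz, rfl⟩, h2⟩

theorem lt_spectralNorm_iff {d : ℕ} (t : ℕ → ℕ → ℕ → ℝ) {σ : ℝ} (hσ : 0 ≤ σ) :
    σ < spectralNorm (fun i j k : Fin d => t i j k) ↔ Exceeds d t σ := by
  rw [lt_spectralNorm _ hσ]
  constructor
  · rintro ⟨x, y, z, hx, hy, hz, h⟩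
    rw [norm_eq_one_iff] at hx hy hz
    let X : ℕ → ℝ := fun i => if h : i < d then x ⟨i, h⟩ else 0
    let Y : ℕ → ℝ := fun i => if h : i < d then y ⟨i, h⟩ else 0
    let Z : ℕ → ℝ := fun i => if h : i < d then z ⟨i, h⟩ else 0
    have eX : ∀ i : Fin d, X i = x i := fun i => by simp [X]
    have eY : ∀ i : Fin d, Y i = y i := fun i => by simp [Y]
    have eZ : ∀ i : Fin d, Z i = z i := fun i => by simp [Z]
    refine ⟨X, Y, Z, ?_, ?_, ?_, ?_⟩
    · rw [← Fin.sum_univ_eq_sum_range (fun i => X i ^ 2)]; simpa only [eX] using hx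
    · rw [← Fin.sum_univ_eq_sum_range (fun i => Y i ^ 2)]; simpa only [eY] using hy
    · rw [← Fin.sum_univ_eq_sum_range (fun i => Z i ^ 2)]; simpa only [eZ] using hz
    · rw [tri_range t x y z X Y Z eX eY eZ]
      exact h
  · rintro ⟨x, y, z, hx, hy, hz, h⟩
    refine ⟨WithLp.toLp 2 fun i => x i, WithLp.toLp 2 fun i => y i, WithLp.toLp 2 fun i => z i,
      ?_, ?_, ?_, ?_⟩
    · rw [norm_eq_one_iff, ← hx]
      exact Fin.sum_univ_eq_sum_range (fun i => x i ^ 2) d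
    · rw [norm_eq_one_iff, ← hy]
      exact Fin.sum_univ_eq_sum_range (fun i => y i ^ 2) d
    · rw [norm_eq_one_iff, ← hz]
      exact Fin.sum_univ_eq_sum_range (fun i => z i ^ 2) d
    · rw [← tri_range t _ _ _ x y z (fun _ => rfl) (fun _ => rfl) (fun _ => rfl)]
      exact h

/-- The forms: the product of the small variable and the homogenizing variable, and the forms of
the system. -/
def rforms (n q : ℕ) (G : List QC) : List (List QT) := [((1 : ℤ), q, 0)] :: forms n G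

theorem bev_add_right (x y d : ℕ → ℝ) (l : ℝ) (p : ℕ × ℕ) (h1 : y p.1 = l * x p.1 + d p.1)
    (h2 : y p.2 = l * x p.2 + d p.2) : bev x y p = l * bev x x p + bev x d p := by
  unfold bev
  rw [h1, h2]
  ring

theorem abs_bev_le {x d : ℕ → ℝ} {p : ℕ × ℕ} {δ : ℝ} (hx1 : |x p.1| ≤ 1) (hx2 : |x p.2| ≤ 1)
    (h1 : |d p.1| ≤ δ) (h2 : |d p.2| ≤ δ) : |bev x d p| ≤ 2 * δ := by
  unfold bev
  refine (abs_add_le _ _).trans ?_
  rw [abs_mul, abs_mul]
  have h3 : |x p.1| * |d p.2| ≤ 1 * δ := mul_le_mul hx1 h2 (abs_nonneg _) (by norm_num)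
  have h4 : |x p.2| * |d p.1| ≤ 1 * δ := mul_le_mul hx2 h1 (abs_nonneg _) (by norm_num)
  linarith

theorem abs_tev_le {n : ℕ} {x d : ℕ → ℝ} {t : QT} {δ : ℝ} (ht : TOk n t)
    (hx : ∀ i < n, |x i| ≤ 1) (hd : ∀ i < n, |d i| ≤ δ) : |tev x d t| ≤ 16 * δ := by
  obtain ⟨h1, h2, h3⟩ := ht
  unfold tev
  rw [abs_mul]
  have h4 : |(t.1 : ℝ)| ≤ 8 := by
    have h5 : ((t.1.natAbs : ℕ) : ℝ) = |(t.1 : ℝ)| := by
      rw [Nat.cast_natAbs]
      push_cast
      rfl
    rw [← h5]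
    exact_mod_cast h1
  have h6 := abs_bev_le (p := t.2) (hx _ h2) (hx _ h3) (hd _ h2) (hd _ h3)
  have h7 : |(t.1 : ℝ)| * |bev x d t.2| ≤ 8 * (2 * δ) :=
    mul_le_mul h4 h6 (abs_nonneg _) (by norm_num)
  linarith

theorem abs_gev_le {n : ℕ} {x d : ℕ → ℝ} {g : QC} {δ : ℝ} (hg : GOk n g)
    (hx : ∀ i < n, |x i| ≤ 1) (hd : ∀ i < n, |d i| ≤ δ) : |gev x d g| ≤ 48 * δ := by
  obtain ⟨h1, h2, h3⟩ := hg
  unfold gev
  have k1 := abs_tev_le h1 hx hd
  have k2 := abs_tev_le h2 hx hd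
  have k3 := abs_tev_le h3 hx hd
  have k4 := abs_add_le (tev x d g.1 + tev x d g.2.1) (tev x d g.2.2)
  have k5 := abs_add_le (tev x d g.1) (tev x d g.2.1)
  linarith

theorem gev_add_right {n : ℕ} {x y d : ℕ → ℝ} {l : ℝ} {g : QC} (hg : GOk n g)
    (h : ∀ i < n, y i = l * x i + d i) : gev x y g = l * gev x x g + gev x d g := by
  obtain ⟨⟨a1, a2, a3⟩, ⟨b1, b2, b3⟩, ⟨c1, c2, c3⟩⟩ := hg
  unfold gev tev
  rw [bev_add_right x y d l _ (h _ a2) (h _ a3), bev_add_right x y d l _ (h _ b2) (h _ b3),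
    bev_add_right x y d l _ (h _ c2) (h _ c3)]
  ring

theorem mem_sum_le (l : List ℝ) (h : ∀ a ∈ l, 0 ≤ a) : ∀ a ∈ l, a ≤ l.sum := by
  induction l with
  | nil => simp
  | cons b l ih =>
    intro a ha
    have h2 := List.sum_nonneg (fun a ha => h a (List.mem_cons_of_mem _ ha))
    have h1 := h b List.mem_cons_self
    rw [List.sum_cons]
    rcases List.mem_cons.1 ha with rfl | ha
    · linarith
    · have := ih (fun a ha => h a (List.mem_cons_of_mem _ ha)) a ha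
      linarith

theorem mul_le_one_of {a b : ℝ} (ha0 : 0 ≤ a) (ha : a ≤ 1) (hb : b ≤ 1) : a * b ≤ 1 :=
  (mul_le_of_le_one_right ha0 hb).trans ha

/-- The size of the parameters. -/
theorem small_of {m P β2 mQ : ℝ} (hm : 100 ≤ m) (hβ : β2 ≤ 4) (hQ : 0 ≤ mQ)
    (h : 1152 * m ^ 2 * P + mQ < β2) : P ≤ 1 / 1000000 := by
  by_contra hcon
  push Not at hcon
  have hm2 : 10000 ≤ m ^ 2 := by nlinarith
  have : 1152 * 10000 * (1 / 1000000) ≤ 1152 * m ^ 2 * P := by
    apply mul_le_mul _ hcon.le (by norm_num) (by positivity)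
    linarith
  linarith

theorem close_of {m a e2 P β : ℝ} (hm : 100 ≤ m) (ha : 1 / 2 ≤ a) (he0 : 0 ≤ e2)
    (he : a * e2 ≤ P) (h : 1152 * m ^ 2 * P ≤ β * β) {r : ℝ} (hr : r ^ 2 ≤ e2) :
    |r| ≤ |β| / (24 * m) := by
  have h2 : 1 / 2 * e2 ≤ P := (mul_le_mul_of_nonneg_right ha he0).trans he
  have h5 := mul_le_mul_of_nonneg_left h2 (show (0 : ℝ) ≤ 1152 * m ^ 2 by positivity)
  have hm0 : 0 < m := by linarith
  apply abs_le_of_sq_le_sq _ (by positivity)
  rw [div_pow, le_div_iff₀ (by positivity), sq_abs]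
  have h6 : r ^ 2 * (24 * m) ^ 2 ≤ e2 * (24 * m) ^ 2 :=
    mul_le_mul_of_nonneg_right hr (by positivity)
  have h7 : 1152 * m ^ 2 * (1 / 2 * e2) = e2 * (24 * m) ^ 2 := by ring
  rw [h7] at h5
  rw [sq β]
  linarith

theorem final_of {m β r1 r2 l B δ : ℝ} (hm : 100 ≤ m) (hg : m * (r1 * r1) ≤ β * β)
    (hr : |r1 - l * r2| ≤ 48 * δ) (hδ : 2400 * δ ≤ |β|) (hB : |β| ≤ |l| * B + 2 * δ)
    (hl : 0 < |l|) : |r2| ≤ 1 / 4 * B := by
  have h4 : 100 * (r1 * r1) ≤ β * β :=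
    (mul_le_mul_of_nonneg_right hm (mul_self_nonneg _)).trans hg
  have h5 : |r1| ≤ |β| / 10 := by
    apply abs_le_of_sq_le_sq _ (by positivity)
    rw [div_pow, sq_abs, sq, sq]
    linarith
  have h6' : |l| * |r2| ≤ |β| / 10 + 48 * δ := by
    rw [← abs_mul]
    have : l * r2 = r1 - (r1 - l * r2) := by ring
    rw [this]
    refine (abs_sub _ _).trans ?_
    linarith
  have h8 : |l| * |r2| ≤ |l| * (1 / 4 * B) := by
    have h9 : |l| * (1 / 4 * B) = 1 / 4 * (|l| * B) := by ring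
    rw [h9]
    have h10 := abs_nonneg β
    linarith
  exact le_of_mul_le_mul_left h8 hl

/-- The inequality between the forms at a point where the tensor exceeds the bound. -/
theorem ineq_of_exceeds {n d q : ℕ} {G : List QC} (hG : ∀ g ∈ G, GOk n g) (hq : q < n)
    (hnd : n ≤ d) (hd : (rforms n q G).length ≤ d) {x y z : ℕ → ℝ}
    (hz : ∑ i ∈ range d, z i ^ 2 = 1)
    (hT : 48 * (G.length : ℝ) < |∑ k ∈ range d, (∑ i ∈ range d, ∑ j ∈ range d,
      (ten (rforms n q G) i j k : ℝ) * x i * y j) * z k|) :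
    (48 * (G.length : ℝ)) ^ 2 < bev x y (q, 0) * bev x y (q, 0) +
      S x y x y (forms n G) := by
  have hF : ∀ f ∈ rforms n q G, FOk n f := by
    intro f hf
    rcases List.mem_cons.1 hf with rfl | hf
    · intro t ht
      rw [List.mem_singleton] at ht
      subst ht
      exact ⟨hq, lt_of_le_of_lt (Nat.zero_le q) hq⟩
    · exact fok_forms hG f hf
  have hFd : ∀ k, FOk d ((rforms n q G).getD k []) := fun k t ht =>
    ⟨(fok_getD hF k t ht).1.trans_le hnd, (fok_getD hF k t ht).2.trans_le hnd⟩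
  have h4 : ∀ k, ∑ i ∈ range d, ∑ j ∈ range d, (ten (rforms n q G) i j k : ℝ) * x i * y j =
      fev x y ((rforms n q G).getD k []) := by
    intro k
    rw [← sum_cf d _ (hFd k)]
    rfl
  simp_rw [h4] at hT
  have hCS := Finset.sum_mul_sq_le_sq_mul_sq (range d)
    (fun k => fev x y ((rforms n q G).getD k [])) z
  rw [hz, mul_one] at hCS
  have hS : ∑ k ∈ range d, fev x y ((rforms n q G).getD k []) ^ 2 =
      S x y x y (rforms n q G) := by
    unfold S
    rw [← sum_getD (rforms n q G) hd (fun f => fev x y f * fev x y f) (by simp)]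
    exact Finset.sum_congr rfl fun k _ => sq _
  rw [hS] at hCS
  have hT2 : (48 * (G.length : ℝ)) ^ 2 < S x y x y (rforms n q G) := by
    refine lt_of_lt_of_le ?_ hCS
    rw [← sq_abs (∑ k ∈ range d, fev x y ((rforms n q G).getD k []) * z k)]
    exact pow_lt_pow_left₀ hT (by positivity) two_ne_zero
  unfold rforms at hT2
  rw [S_cons] at hT2
  have hfev : fev x y [((1 : ℤ), q, 0)] = bev x y (q, 0) := by
    simp [fev, tev]
  rw [hfev] at hT2
  exact hT2

/-- **The main equivalence, first direction.** -/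
theorem robust_of_exceeds {n d q : ℕ} {G : List QC} (hG : ∀ g ∈ G, GOk n g) (hq : q < n)
    (hm : 100 ≤ G.length) (hnd : n ≤ d) (hd : (rforms n q G).length ≤ d)
    (h : Exceeds d (fun i j k => (ten (rforms n q G) i j k : ℝ)) (48 * (G.length : ℝ))) :
    ∃ x : ℕ → ℝ, bev x x (q, 0) ≠ 0 ∧ ∀ g ∈ G, |gev x x g| ≤ 1 / 4 * |bev x x (q, 0)| := by
  obtain ⟨x, y, z, hx, hy, hz, hT⟩ := h
  have hT2 := ineq_of_exceeds hG hq hnd hd hz hT
  clear hT hz z hd
  rw [S_forms x y x y n G hG, sum_bev] at hT2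
  obtain ⟨m, hmdef⟩ : ∃ m : ℝ, m = (G.length : ℝ) := ⟨_, rfl⟩
  have hm1 : (100 : ℝ) ≤ m := by rw [hmdef]; exact_mod_cast hm
  rw [← hmdef] at hT2
  obtain ⟨β, hβ⟩ : ∃ β, β = bev x y (q, 0) := ⟨_, rfl⟩
  obtain ⟨a, ha⟩ : ∃ a, a = ∑ i ∈ range n, x i ^ 2 := ⟨_, rfl⟩
  obtain ⟨b, hb⟩ : ∃ b, b = ∑ i ∈ range n, y i ^ 2 := ⟨_, rfl⟩
  obtain ⟨c, hc⟩ : ∃ c, c = ∑ i ∈ range n, x i * y i := ⟨_, rfl⟩
  have ea : ∑ i ∈ range n, x i * x i = a := by simp only [ha, sq]
  have eb : ∑ i ∈ range n, y i * y i = b := by simp only [hb, sq]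
  have ec : ∑ i ∈ range n, y i * x i = c := by
    rw [hc]; exact Finset.sum_congr rfl (fun i _ => mul_comm _ _)
  rw [ea, eb, ec, ← hc, ← hβ] at hT2
  have hsub : range n ⊆ range d := Finset.range_subset_range.2 hnd
  have ha1 : a ≤ 1 := by
    rw [← hx, ha]
    exact Finset.sum_le_sum_of_subset_of_nonneg hsub (fun _ _ _ => sq_nonneg _)
  have hb1 : b ≤ 1 := by
    rw [← hy, hb]
    exact Finset.sum_le_sum_of_subset_of_nonneg hsub (fun _ _ _ => sq_nonneg _)
  have ha0 : 0 ≤ a := by rw [ha]; exact Finset.sum_nonneg (fun _ _ => sq_nonneg _)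
  have hb0 : 0 ≤ b := by rw [hb]; exact Finset.sum_nonneg (fun _ _ => sq_nonneg _)
  have hcs : c * c ≤ a * b := by
    have := Finset.sum_mul_sq_le_sq_mul_sq (range n) x y
    rw [← hc, ← ha, ← hb] at this
    linarith [this, sq c]
  have hab : a * b ≤ 1 := mul_le_one_of ha0 ha1 hb1
  have hxi : ∀ i < n, x i ^ 2 ≤ a := fun i hi => by
    rw [ha]
    exact Finset.single_le_sum (f := fun i => x i ^ 2) (fun i _ => sq_nonneg _)
      (Finset.mem_range.2 hi)
  have hyi : ∀ i < n, y i ^ 2 ≤ b := fun i hi => by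
    rw [hb]
    exact Finset.single_le_sum (f := fun i => y i ^ 2) (fun i _ => sq_nonneg _)
      (Finset.mem_range.2 hi)
  have hx1 : ∀ i < n, |x i| ≤ 1 := fun i hi => by
    apply abs_le_of_sq_le_sq _ (by norm_num)
    have := hxi i hi
    linarith
  have hy1 : ∀ i < n, |y i| ≤ 1 := fun i hi => by
    apply abs_le_of_sq_le_sq _ (by norm_num)
    have := hyi i hi
    linarith
  have h0n : 0 < n := by omega
  have hβ2 : |β| ≤ 2 := by
    have := abs_bev_le (p := (q, 0)) (δ := 1) (hx1 _ hq) (hx1 _ h0n) (hy1 _ hq) (hy1 _ h0n)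
    rw [← hβ] at this
    linarith
  have hβsq : β * β ≤ 4 := by
    rw [← abs_mul_abs_self]
    calc |β| * |β| ≤ 2 * 2 := mul_le_mul hβ2 hβ2 (abs_nonneg _) (by norm_num)
      _ = 4 := by norm_num
  have hg0 : ∀ r ∈ G.map (fun g => gev x y g * gev x y g), 0 ≤ r := by
    intro r hr
    obtain ⟨g, _, rfl⟩ := List.mem_map.1 hr
    exact mul_self_nonneg _
  have hsum0 := List.sum_nonneg hg0
  have hQmem : ∀ g ∈ G, gev x y g * gev x y g ≤
      (G.map (fun g => gev x y g * gev x y g)).sum := fun g hg =>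
    mem_sum_le _ hg0 (gev x y g * gev x y g) (List.mem_map.2 ⟨g, hg, rfl⟩)
  obtain ⟨Q, hQ⟩ : ∃ Q, Q = (G.map (fun g => gev x y g * gev x y g)).sum := ⟨_, rfl⟩
  rw [← hQ] at hsum0 hQmem hT2
  have hm0 : 0 < m := by linarith
  have hmQ : 0 ≤ m * Q := mul_nonneg hm0.le hsum0
  obtain ⟨P, hP⟩ : ∃ P, P = (1 - a * b) + (1 - c * c) := ⟨_, rfl⟩
  have h6 : 1152 * m ^ 2 * P + m * Q < β * β := by
    rw [hP]
    nlinarith [hT2]
  have hcc1 : c * c ≤ 1 := hcs.trans hab
  have h7 : 0 ≤ P := by rw [hP]; linarith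
  have hsmall : P ≤ 1 / 1000000 := small_of hm1 hβsq hmQ h6
  have hmP : 0 ≤ 1152 * m ^ 2 * P := by positivity
  have hβ0 : 0 < β * β := by linarith
  have hβne : β ≠ 0 := fun h => by rw [h] at hβ0; simp at hβ0
  have hβpos : 0 < |β| := abs_pos.2 hβne
  have haHalf : 1 / 2 ≤ a := by
    have h8 : a * b ≤ a := mul_le_of_le_one_right ha0 hb1
    rw [hP] at hsmall
    linarith
  have hccH : 1 / 2 ≤ c * c := by
    rw [hP] at hsmall
    linarith
  obtain ⟨l, hl⟩ : ∃ l, l = c / a := ⟨_, rfl⟩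
  have hla : l * a = c := by rw [hl]; exact div_mul_cancel₀ _ (by linarith)
  obtain ⟨e, he⟩ : ∃ e : ℕ → ℝ, e = fun i => y i - l * x i := ⟨_, rfl⟩
  have hye : ∀ i < n, y i = l * x i + e i := fun i _ => by simp [he]
  have hesum : a * ∑ i ∈ range n, e i ^ 2 = a * b - c * c := by
    have h1 : ∀ i, e i ^ 2 = y i ^ 2 - 2 * l * (x i * y i) + l * l * x i ^ 2 := by
      intro i; simp only [he]; ring
    simp_rw [h1, Finset.sum_add_distrib, Finset.sum_sub_distrib, ← Finset.mul_sum]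
    rw [← ha, ← hb, ← hc]
    have : a * (b - 2 * l * c + l * l * a) = a * b - 2 * (l * a) * c + (l * a) * (l * a) := by ring
    rw [this, hla]
    ring
  have hei : ∀ i < n, |e i| ≤ |β| / (24 * m) := by
    intro i hi
    refine close_of (P := P) (e2 := ∑ i ∈ range n, e i ^ 2) hm1 haHalf
      (Finset.sum_nonneg fun _ _ => sq_nonneg _) ?_ ?_
      (Finset.single_le_sum (f := fun i => e i ^ 2) (fun i _ => sq_nonneg _)
        (Finset.mem_range.2 hi))
    · rw [hesum, hP]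
      linarith
    · linarith
  obtain ⟨δ, hδ⟩ : ∃ δ, δ = |β| / (24 * m) := ⟨_, rfl⟩
  rw [← hδ] at hei
  have hδβ : δ * (24 * m) = |β| := by rw [hδ]; exact div_mul_cancel₀ _ (by positivity)
  have hδ0 : 0 ≤ δ := by rw [hδ]; positivity
  have hδs : 2400 * δ ≤ |β| := by
    rw [← hδβ]
    have : δ * (24 * 100) ≤ δ * (24 * m) := mul_le_mul_of_nonneg_left (by linarith) hδ0
    linarith
  have hβl : |β| ≤ |l| * |bev x x (q, 0)| + 2 * δ := by
    have h1 := bev_add_right x y e l (q, 0) (hye _ hq) (hye _ h0n)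
    have h2 := abs_bev_le (p := (q, 0)) (hx1 _ hq) (hx1 _ h0n) (hei _ hq) (hei _ h0n)
    rw [hβ, h1]
    refine (abs_add_le _ _).trans ?_
    rw [abs_mul]
    linarith
  have hl0 : 0 < |l| := by
    rw [abs_pos]
    intro h
    rw [h, zero_mul] at hla
    rw [← hla] at hccH
    norm_num at hccH
  refine ⟨x, ?_, fun g hg => ?_⟩
  · intro h
    rw [h, abs_zero, mul_zero] at hβl
    linarith
  · have h1 := gev_add_right (hG g hg) hye
    have h2 := abs_gev_le (hG g hg) hx1 hei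
    refine final_of (β := β) (m := m) (r1 := gev x y g) (l := l) (δ := δ)
      hm1 ?_ ?_ hδs hβl hl0
    · have h3 := mul_le_mul_of_nonneg_left (hQmem g hg) hm0.le
      linarith
    · have : gev x y g - l * gev x x g = gev x e g := by rw [h1]; ring
      rw [this]
      exact h2

/-- **The main equivalence, second direction.** -/
theorem exceeds_of_zero {n d q : ℕ} {G : List QC} (hG : ∀ g ∈ G, GOk n g) (hq : q < n)
    (hm : 100 ≤ G.length) (hnd : n ≤ d) (hd : (rforms n q G).length ≤ d) {x₀ : ℕ → ℝ}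
    (hb₀ : bev x₀ x₀ (q, 0) ≠ 0) (h0 : ∀ i, n ≤ i → x₀ i = 0)
    (hg₀ : ∀ g ∈ G, gev x₀ x₀ g = 0) :
    Exceeds d (fun i j k => (ten (rforms n q G) i j k : ℝ)) (48 * (G.length : ℝ)) := by
  set m : ℝ := (G.length : ℝ) with hmdef
  have hm1 : (100 : ℝ) ≤ m := by rw [hmdef]; exact_mod_cast hm
  have hF : ∀ f ∈ rforms n q G, FOk n f := by
    intro f hf
    rcases List.mem_cons.1 hf with rfl | hf
    · intro t ht
      rw [List.mem_singleton] at ht
      subst ht
      exact ⟨hq, lt_of_le_of_lt (Nat.zero_le q) hq⟩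
    · exact fok_forms hG f hf
  have hFd : ∀ k, FOk d ((rforms n q G).getD k []) := fun k t ht =>
    ⟨(fok_getD hF k t ht).1.trans_le hnd, (fok_getD hF k t ht).2.trans_le hnd⟩
  -- normalization
  set s := ∑ i ∈ range n, x₀ i ^ 2 with hs
  have hs0 : 0 < s := by
    refine lt_of_le_of_ne (Finset.sum_nonneg fun _ _ => sq_nonneg _) fun h => hb₀ ?_
    have h1 := (Finset.sum_eq_zero_iff_of_nonneg (fun i _ => sq_nonneg (x₀ i))).1 h.symm q
      (Finset.mem_range.2 hq)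
    have h2 : x₀ q = 0 := pow_eq_zero_iff two_ne_zero |>.1 h1
    simp [bev, h2]
  have hr2 : Real.sqrt s ^ 2 = s := Real.sq_sqrt hs0.le
  have hr0 : 0 < Real.sqrt s := Real.sqrt_pos.2 hs0
  set x : ℕ → ℝ := fun i => x₀ i / Real.sqrt s with hxdef
  have hxn : ∑ i ∈ range n, x i ^ 2 = 1 := by
    simp only [hxdef, div_pow, hr2]
    rw [← Finset.sum_div, ← hs, div_self hs0.ne']
  have hxo : ∀ i, n ≤ i → x i = 0 := fun i hi => by simp [hxdef, h0 i hi]
  have hxd : ∑ i ∈ range d, x i ^ 2 = 1 := by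
    rw [← hxn]
    symm
    apply Finset.sum_subset (Finset.range_subset_range.2 hnd)
    intro i _ hi
    rw [hxo i (not_lt.1 (fun h => hi (Finset.mem_range.2 h)))]
    ring
  have hscale : ∀ p, bev x x p = bev x₀ x₀ p / (Real.sqrt s * Real.sqrt s) := by
    intro p
    simp only [bev, hxdef]
    field_simp
  have hg : ∀ g ∈ G, gev x x g = 0 := by
    intro g hg
    have h1 : gev x x g = gev x₀ x₀ g / (Real.sqrt s * Real.sqrt s) := by
      unfold gev tev
      rw [hscale, hscale, hscale]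
      ring
    rw [h1, hg₀ g hg, zero_div]
  have hb : bev x x (q, 0) ≠ 0 := by
    rw [hscale]
    exact div_ne_zero hb₀ (by positivity)
  set β := bev x x (q, 0) with hβ
  have hS : S x x x x (rforms n q G) = (48 * m) ^ 2 + β * β := by
    unfold rforms
    rw [S_cons, S_forms x x x x n G hG, sum_bev]
    have e1 : fev x x [((1 : ℤ), q, 0)] = β := by simp [fev, tev, hβ]
    have e2 : (G.map (fun g => gev x x g * gev x x g)).sum = 0 := by
      apply List.sum_eq_zero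
      intro r hr
      obtain ⟨g, hg', rfl⟩ := List.mem_map.1 hr
      rw [hg g hg', zero_mul]
    have e3 : ∑ i ∈ range n, x i * x i = 1 := by rw [← hxn]; simp only [sq]
    rw [e1, e2, e3, ← hmdef]
    ring
  set R := S x x x x (rforms n q G) with hR
  have hm0 : 0 < m := by linarith
  have hR0 : 0 < R := by
    rw [hS]
    have h8 : 0 < (48 * m) ^ 2 := by positivity
    have h9 := mul_self_nonneg β
    linarith
  have hsR : Real.sqrt R ^ 2 = R := Real.sq_sqrt hR0.le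
  have hsR0 : 0 < Real.sqrt R := Real.sqrt_pos.2 hR0
  have hsum : ∑ k ∈ range d, fev x x ((rforms n q G).getD k []) ^ 2 = R := by
    rw [hR]
    unfold S
    rw [← sum_getD (rforms n q G) hd (fun f => fev x x f * fev x x f) (by simp)]
    exact Finset.sum_congr rfl fun k _ => sq _
  refine ⟨x, x, fun k => fev x x ((rforms n q G).getD k []) / Real.sqrt R, hxd, hxd, ?_, ?_⟩
  · simp_rw [div_pow, hsR]
    rw [← Finset.sum_div, hsum, div_self hR0.ne']
  · have h4 : ∀ k, ∑ i ∈ range d, ∑ j ∈ range d, (ten (rforms n q G) i j k : ℝ) * x i * x j =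
        fev x x ((rforms n q G).getD k []) := by
      intro k
      rw [← sum_cf d _ (hFd k)]
      rfl
    simp_rw [h4]
    have h5 : ∑ k ∈ range d, fev x x ((rforms n q G).getD k []) *
        (fev x x ((rforms n q G).getD k []) / Real.sqrt R) = Real.sqrt R := by
      have h6 : ∀ k, fev x x ((rforms n q G).getD k []) *
        (fev x x ((rforms n q G).getD k []) / Real.sqrt R) =
          fev x x ((rforms n q G).getD k []) ^ 2 / Real.sqrt R := fun k => by ring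
      simp_rw [h6]
      rw [← Finset.sum_div, hsum, div_eq_iff hsR0.ne', ← sq, hsR]
    rw [h5, abs_of_pos hsR0]
    apply Real.lt_sqrt_of_sq_lt
    rw [hS]
    have : 0 < β * β := mul_self_pos.2 hb
    linarith


end Pool.Agent.Y604.QF
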