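import Pool.Agent.Y604.QF.SNA

/-!
# The spectral norm: correctness of the reduction
-/

namespace Pool.Agent.Y604.QF

open Finset Pool.Agent.NPC Pool.Agent.NPC.ER Pool.Agent.H78R3.TSV

/-! ### The instance -/

/-- The instance of a system of quadratic forms: a tensor and a number. -/
def mkInst (n q : ℕ) (G : List QC) : List (List (List ℚ)) × ℚ :=
  (tenL (n + (rforms n q G).length) (rforms n q G), (((48 * G.length : ℕ) : ℤ) : ℚ))

theorem exceeds_congr {d : ℕ} {t t' : ℕ → ℕ → ℕ → ℝ} {σ : ℝ}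
    (h : ∀ i < d, ∀ j < d, ∀ k < d, t i j k = t' i j k) : Exceeds d t σ ↔ Exceeds d t' σ := by
  have key : ∀ t t' : ℕ → ℕ → ℕ → ℝ, (∀ i < d, ∀ j < d, ∀ k < d, t i j k = t' i j k) →
      Exceeds d t σ → Exceeds d t' σ := by
    rintro t t' h ⟨x, y, z, hx, hy, hz, h1⟩
    refine ⟨x, y, z, hx, hy, hz, ?_⟩
    have e : ∑ k ∈ range d, (∑ i ∈ range d, ∑ j ∈ range d, t' i j k * x i * y j) * z k =
        ∑ k ∈ range d, (∑ i ∈ range d, ∑ j ∈ range d, t i j k * x i * y j) * z k :=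
      Finset.sum_congr rfl fun k hk => by
        congr 1
        exact Finset.sum_congr rfl fun i hi => Finset.sum_congr rfl fun j hj => by
          rw [h i (Finset.mem_range.1 hi) j (Finset.mem_range.1 hj) k (Finset.mem_range.1 hk)]
    rw [e]
    exact h1
  exact ⟨key t t' h, key t' t fun i hi j hj k hk => (h i hi j hj k hk).symm⟩

theorem exceed_iff (q : List (List (List ℚ)) × ℚ) : SpectralNormExceed q ↔ IsCube q.1 ∧ 0 < q.2 ∧
    Exceeds q.1.length (fun i j k => ((entry q.1 i j k : ℚ) : ℝ)) (q.2 : ℝ) := by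
  unfold SpectralNormExceed tensorOf
  constructor
  · rintro ⟨h1, h2, h3⟩
    exact ⟨h1, h2, (lt_spectralNorm_iff (fun i j k => ((entry q.1 i j k : ℚ) : ℝ))
      (by exact_mod_cast h2.le)).1 h3⟩
  · rintro ⟨h1, h2, h3⟩
    exact ⟨h1, h2, (lt_spectralNorm_iff (fun i j k => ((entry q.1 i j k : ℚ) : ℝ))
      (by exact_mod_cast h2.le)).2 h3⟩

theorem exceed_tenL (d : ℕ) (L : List (List QT)) (q : ℚ) (hq : 0 < q) :
    SpectralNormExceed (tenL d L, q) ↔ Exceeds d (fun i j k => (ten L i j k : ℝ)) (q : ℝ) := by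
  rw [exceed_iff]
  have h3 : (tenL d L).length = d := length_tenL _ _
  simp only [h3]
  have key := exceeds_congr (d := d) (t := fun i j k => (ten L i j k : ℝ))
    (t' := fun i j k => ((entry (tenL d L) i j k : ℚ) : ℝ)) (σ := (q : ℝ))
    (fun i hi j hj k hk => by
      show (ten L i j k : ℝ) = ((entry (tenL d L) i j k : ℚ) : ℝ)
      rw [entry_tenL hi hj hk]
      push_cast
      rfl)
  rw [key]
  exact ⟨fun h => h.2.2, fun h => ⟨isCube_tenL _ _, hq, h⟩⟩

theorem exceeds_iff {n d q : ℕ} {G : List QC} (hG : ∀ g ∈ G, GOk n g) (hq : q < n)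
    (hm : 100 ≤ G.length) (hd : d = n + (rforms n q G).length) {P : Prop}
    (h1 : P → ∃ x : ℕ → ℝ, bev x x (q, 0) ≠ 0 ∧ (∀ i, n ≤ i → x i = 0) ∧ ∀ g ∈ G, gev x x g = 0)
    (h2 : (∃ x : ℕ → ℝ, bev x x (q, 0) ≠ 0 ∧ ∀ g ∈ G, |gev x x g| ≤ 1 / 4 * |bev x x (q, 0)|) →
      P) : P ↔ SpectralNormExceed (tenL d (rforms n q G), (((48 * G.length : ℕ) : ℤ) : ℚ)) := by
  have h3 : (0 : ℚ) < (((48 * G.length : ℕ) : ℤ) : ℚ) := by
    exact_mod_cast (by omega : 0 < 48 * G.length)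
  have h4 : (((((48 * G.length : ℕ) : ℤ) : ℚ)) : ℝ) = 48 * (G.length : ℝ) := by
    push_cast
    ring
  rw [exceed_tenL _ _ _ h3, h4]
  constructor
  · intro h
    obtain ⟨x, h5, h6, h7⟩ := h1 h
    exact exceeds_of_zero hG hq hm (by omega) (by omega) h5 h6 h7
  · intro h
    exact h2 (robust_of_exceeds hG hq hm (by omega) (by omega) h)

/-- **Correctness of the reduction.** -/
theorem sat_iff_exceed (S : List ER.Con) :
    Sat S ↔ SpectralNormExceed (mkInst (rn S) (rq S) (rsys S)) :=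
  exceeds_iff (n := rn S) (q := rq S) (G := rsys S) (rsys_ok S) (rq_lt_rn S)
    (hundred_le_length S) rfl robust_of_sat fun ⟨x, h5, h6⟩ => sat_of_robust S x h5 h6

theorem isCube_mkInst {n q : ℕ} {G : List QC} (h : 100 ≤ G.length) :
    IsCube (mkInst n q G).1 ∧ 0 < (mkInst n q G).2 := by
  refine ⟨isCube_tenL _ _, ?_⟩
  have h3 : (0 : ℚ) < (((48 * G.length : ℕ) : ℤ) : ℚ) := by
    exact_mod_cast (by omega : 0 < 48 * G.length)
  exact h3

theorem bound_iff {q : List (List (List ℚ)) × ℚ} (h : IsCube q.1 ∧ 0 < q.2) :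
    SpectralNormBound q ↔ ¬ SpectralNormExceed q := by
  unfold SpectralNormBound SpectralNormExceed
  simp only [h.1, h.2, true_and, not_lt]

end Pool.Agent.Y604.QF
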